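import Pool.Agent.K1H5.PP.Stm

set_option autoImplicit false

/-! # Project PP: the main step (by helper7) -/

namespace Pool.Agent.K1H7.PP

open MonoidAlgebra Pool.Agent.K1H5.PP

universe u v w

/-- augmentation -/
noncomputable def aug (A : Type u) [Monoid A] : MonoidAlgebra ℤ A →+* ℤ :=
  (MonoidAlgebra.lift ℤ ℤ A (1 : A →* ℤ)).toRingHom

theorem aug_apply {A : Type u} [Monoid A] (a : MonoidAlgebra ℤ A) :
    aug A a = a.coeff.sum (fun _ c => c) := by
  unfold aug
  show MonoidAlgebra.lift ℤ ℤ A (1 : A →* ℤ) a = _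
  rw [MonoidAlgebra.lift_apply]
  simp

theorem aug_map {A : Type u} {B : Type v} [Monoid A] [Monoid B] (f : A →* B)
    (a : MonoidAlgebra ℤ A) : aug B (mapDomainRingHom ℤ f a) = aug A a := by
  have h : (aug B).comp (mapDomainRingHom ℤ f) = aug A := by
    apply MonoidAlgebra.ringHom_ext
    · intro r
      simp [aug]
    · intro m
      simp [aug]
  exact RingHom.congr_fun h a

theorem aug_van {G : Type u} [Group G] (a : MonoidAlgebra ℤ G) (h : Van (⊤ : Subgroup G) a) :
    aug G a = 0 := by
  classical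
  rw [aug_apply, Finsupp.sum]
  have h1 := h 1
  rw [Finset.filter_true_of_mem (fun x _ => Subgroup.mem_top _)] at h1
  exact h1

/-- the abstract step -/
theorem key (h1 : S_ONE.{u}) (A : Type u) [CommGroup A] (hA : TFP A) {ι : Type w} [Fintype ι]
    [DecidableEq ι] (r : ι → MonoidAlgebra ℤ A) (m : Matrix ι ι (MonoidAlgebra ℤ A))
    (hr : ∀ j, r j = ∑ i, r i * m i j) (hm : ∀ i j, aug A (m i j) = 0) : ∀ j, r j = 0 := by
  have hN : Matrix.vecMul r (1 - m) = 0 := by
    rw [Matrix.vecMul_sub, Matrix.vecMul_one, sub_eq_zero]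
    funext j
    rw [hr j]
    rfl
  have h2 : (1 - m).det • r = 0 := by
    have e1 : Matrix.vecMul (Matrix.vecMul r (1 - m)) (1 - m).adjugate = 0 := by
      rw [hN, Matrix.zero_vecMul]
    rw [Matrix.vecMul_vecMul, Matrix.mul_adjugate, Matrix.vecMul_smul, Matrix.vecMul_one] at e1
    exact e1
  have h3 : aug A (1 - m).det = 1 := by
    rw [RingHom.map_det]
    have : (aug A).mapMatrix (1 - m) = 1 := by
      rw [map_sub, map_one]
      have : (aug A).mapMatrix m = 0 := by
        ext i j
        exact hm i j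
      rw [this, sub_zero]
    rw [this, Matrix.det_one]
  intro j
  apply h1 A hA (1 - m).det (r j)
  · rw [← aug_apply]
    exact h3
  · exact congrFun h2 j

/-- a commutative group -/
@[reducible] def cg {A : Type u} (inst : Group A) (h : ∀ a b : A, a * b = b * a) : CommGroup A :=
  { inst with mul_comm := h }

theorem key' (h1 : S_ONE.{u}) (A : Type u) [inst : Group A] (hA : TFP A) {ι : Type w} [Fintype ι]
    (r : ι → MonoidAlgebra ℤ A) (m : ι → ι → MonoidAlgebra ℤ A)
    (hr : ∀ j, r j = ∑ i, r i * m i j) (hm : ∀ i j, aug A (m i j) = 0) : ∀ j, r j = 0 := by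
  classical
  exact @key h1 A (cg inst hA.1) hA ι _ _ r m hr hm

theorem t_B (h1 : S_ONE.{u}) (h2 : S_GV.{u, v}) (h3 : S_VN.{u}) : S_B.{u, v} := by
  classical
  intro G _ P _ _ hP hG L _ hL
  obtain ⟨s, hs⟩ := hP.out
  have hs' : ∀ x : P, Finsupp.linearCombination (MonoidAlgebra ℤ G) id (s x) = x := hs
  have hT := (h2 G P s hs' ⊤).1 hG
  rw [h2 G P s hs' L]
  intro x b
  rw [h3 G L]
  by_cases hb : b ∈ (s x).support
  · have hsum : ∀ j : P, s x j = ∑ i ∈ (s x).support, s x i * s i j := by
      intro j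
      have e1 : s x = ∑ i ∈ (s x).support, s x i • s i := by
        conv_lhs => rw [← hs' x]
        rw [Finsupp.linearCombination_apply, Finsupp.sum, map_sum]
        apply Finset.sum_congr rfl
        intro i _
        rw [map_smul]
        rfl
      have e2 := DFunLike.congr_fun e1 j
      rw [Finsupp.finsetSum_apply] at e2
      exact e2
    have hk := key' h1 (G ⧸ L) hL (ι := {i // i ∈ (s x).support})
      (fun j => mapDomainRingHom ℤ (QuotientGroup.mk' L) (s x j.1))
      (fun i j => mapDomainRingHom ℤ (QuotientGroup.mk' L) (s i.1 j.1)) (by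
        intro j
        conv_lhs => rw [hsum j.1]
        rw [map_sum, ← Finset.sum_coe_sort]
        apply Finset.sum_congr rfl
        intro i _
        rw [map_mul]) (by
        intro i j
        rw [aug_map]
        exact aug_van _ (hT i.1 j.1))
    exact hk ⟨b, hb⟩
  · rw [Finsupp.notMem_support_iff.1 hb, map_zero]

end Pool.Agent.K1H7.PP
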